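import Pool.Agent.N52.ST.Stm

/-!
# STR: near inclusion on average gives near inclusion
-/

set_option autoImplicit false

namespace Pool.Agent.N607.ST.STR

open Matrix Finset
open scoped ComplexOrder
open Pool.Agent.W661.RC Pool.Agent.W683.RC Pool.Agent.N303.KQ Pool.Agent.N52.NH Pool.Agent.N52.ST

noncomputable section

variable {d : ℕ} {O : Out d}

/-- the projection onto the block algebra -/
def EE (O : Out d) (x : Mt d) : Mt d := JJ (Jb O) (kp (Jb O) x)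

theorem EE_mem (x : Mt d) : EE O x ∈ O.alg := JJ_mem _

/-- the matrix of `ξ ↦ y - E y`, where `y = V (JJ ξ) V*` -/
def LV (O : Out d) (V : Mt d) : Matrix (Fin d × Fin d) (Yx O) ℂ :=
  fun p y => (V * Jb O y * Vᴴ - EE O (V * Jb O y * Vᴴ)) p.1 p.2

theorem EE_lin (V : Mt d) (ξ : Yx O → ℂ) :
    EE O (V * JJ (Jb O) ξ * Vᴴ) = ∑ y, ξ y • EE O (V * Jb O y * Vᴴ) := by
  have h1 : V * JJ (Jb O) ξ * Vᴴ = ∑ y, ξ y • (V * Jb O y * Vᴴ) := by
    rw [Pool.Agent.N303.KQ.JJ, Matrix.mul_sum, Matrix.sum_mul]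
    refine sum_congr rfl fun y _ => ?_
    rw [Matrix.mul_smul, Matrix.smul_mul]
  rw [h1]
  simp only [EE, Pool.Agent.N303.KQ.JJ, kp, ip_sum_right, ip_smul_right, sum_smul, smul_sum, smul_smul]
  rw [sum_comm]

theorem LV_mulVec (V : Mt d) (ξ : Yx O → ℂ) :
    nsq (LV O V *ᵥ ξ) = hs (V * JJ (Jb O) ξ * Vᴴ - EE O (V * JJ (Jb O) ξ * Vᴴ)) := by
  have h1 : ∀ p, (LV O V *ᵥ ξ) p =
      (V * JJ (Jb O) ξ * Vᴴ - EE O (V * JJ (Jb O) ξ * Vᴴ)) p.1 p.2 := by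
    intro p
    rw [EE_lin, mulVec, dotProduct, Pool.Agent.N303.KQ.JJ, Matrix.mul_sum, Matrix.sum_mul,
      ← sum_sub_distrib,
      Matrix.sum_apply]
    refine sum_congr rfl fun y _ => ?_
    rw [LV, Matrix.mul_smul, Matrix.smul_mul, ← smul_sub, Matrix.smul_apply, smul_eq_mul, mul_comm]
  rw [nsq, hs, Fintype.sum_prod_type]
  refine sum_congr rfl fun i _ => sum_congr rfl fun j _ => ?_
  rw [h1]

theorem W2_LV {V : Mt d} (hV : Vᴴ * V = 1) : W2 O (LV O V) = D0 O - W2 O (TT O V) := by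
  have h1 := sum_nsq' (O := O) (LV O V)
  have h2 := sum_nsq' (O := O) (TT O V)
  have h3 : ∀ ω : Om O, nsq (LV O V *ᵥ xv O ω) = D0 O - nsq (TT O V *ᵥ xv O ω) := by
    intro ω
    rw [LV_mulVec, TT_xv, JJ_xv]
    have h4 := hs_eq_kp (onf_Jb (O := O)) (V * vv O ω * Vᴴ)
    rw [hs_mul_unit (unit_conj hV), hs_unit_mul hV, hs_vv] at h4
    rw [EE]
    linarith
  rw [sum_congr rfl fun ω _ => h3 ω, sum_sub_distrib, h2, sum_const, card_univ,
    nsmul_eq_mul] at h1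
  have h5 : (Fintype.card (Om O) : ℝ) * (D0 O - W2 O (TT O V)) =
      (Fintype.card (Om O) : ℝ) * W2 O (LV O V) := by linarith
  exact (mul_left_cancel₀ card_Om_pos.ne' h5).symm

/-- conjugation preserves contractions -/
theorem contr_V {V y : Mt d} (hV : Vᴴ * V = 1) (hy : Le (yᴴ * y) 1) :
    Le ((V * y * Vᴴ)ᴴ * (V * y * Vᴴ)) 1 := by
  have e3 : (V * y * Vᴴ)ᴴ * (V * y * Vᴴ) = V * (yᴴ * y) * Vᴴ := by
    rw [Matrix.conjTranspose_mul, Matrix.conjTranspose_mul, Matrix.conjTranspose_conjTranspose]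
    calc V * (yᴴ * Vᴴ) * (V * y * Vᴴ) = V * yᴴ * (Vᴴ * V) * y * Vᴴ := by
          simp only [Matrix.mul_assoc]
      _ = _ := by rw [hV, Matrix.mul_one]; simp only [Matrix.mul_assoc]
  rw [e3]
  have h6 := Le_conj' hy V
  rw [Matrix.mul_one, unit_symm hV] at h6
  exact h6

/-- products of contractions -/
theorem contr_prod {a b : Mt d} (ha : Le (aᴴ * a) 1) (hb : Le (bᴴ * b) 1) :
    Le ((a * b)ᴴ * (a * b)) 1 := by
  have e : (a * b)ᴴ * (a * b) = bᴴ * (aᴴ * a) * b := by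
    rw [Matrix.conjTranspose_mul]
    simp only [Matrix.mul_assoc]
  rw [e]
  have h := Le_conj ha b
  rw [Matrix.mul_one] at h
  exact Le_trans h hb

theorem main (hC : S_CEX) : S_STR := by
  intro d O V η hV hW a ha ha1
  have hL : W2 O (LV O V) ≤ η * d := by rw [W2_LV hV]; linarith
  have hLa : W2 O (LV O V * Rz O a) ≤ η * d := by
    refine le_trans ?_ hL
    rw [W2_eq, W2_eq, Matrix.mul_assoc, Rz_comm, ← Matrix.mul_assoc]
    exact hs_mul_le_right (Rz_contr ha1) _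
  have : Nonempty (Om O) := ⟨(fun _ => true, ⟨1, fun _ => rfl⟩)⟩
  obtain ⟨ω, hω⟩ : ∃ ω : Om O, nsq (LV O V *ᵥ xv O ω) +
      nsq ((LV O V * Rz O a) *ᵥ xv O ω) ≤ 2 * (η * d) := by
    by_contra h
    push Not at h
    have h1 : ∑ _ω : Om O, (2 * (η * d)) < ∑ ω : Om O, (nsq (LV O V *ᵥ xv O ω) +
        nsq ((LV O V * Rz O a) *ᵥ xv O ω)) :=
      sum_lt_sum_of_nonempty univ_nonempty fun ω _ => h ω
    rw [sum_add_distrib, sum_nsq', sum_nsq', sum_const, card_univ, nsmul_eq_mul] at h1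
    have h2 := card_Om_pos (O := O)
    have h3 := mul_le_mul_of_nonneg_left hL h2.le
    have h4 := mul_le_mul_of_nonneg_left hLa h2.le
    linarith
  rw [← mulVec_mulVec, LV_mulVec, LV_mulVec, JJ_Rz ha, JJ_xv] at hω
  have hvc : Le ((vv O ω)ᴴ * vv O ω) 1 := vv_contr ω
  have hvv : (vv O ω)ᴴ * vv O ω = pO O := vv_conj_mul ω
  have hpa : pO O * a = a := pO_mul_alg ha
  generalize vv O ω = v at hω hvc hvv
  have hxc : Le ((V * v * Vᴴ)ᴴ * (V * v * Vᴴ)) 1 := contr_V hV hvc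
  have hx'c : Le ((V * (v * a) * Vᴴ)ᴴ * (V * (v * a) * Vᴴ)) 1 := contr_V hV (contr_prod hvc ha1)
  have e1 : V * a * Vᴴ = (V * v * Vᴴ)ᴴ * (V * (v * a) * Vᴴ) := by
    rw [Matrix.conjTranspose_mul, Matrix.conjTranspose_mul, Matrix.conjTranspose_conjTranspose]
    calc V * a * Vᴴ = V * ((vᴴ * v) * a) * Vᴴ := by rw [hvv, hpa]
      _ = V * vᴴ * 1 * (v * a) * Vᴴ := by
          rw [Matrix.mul_one]; simp only [Matrix.mul_assoc]
      _ = V * vᴴ * (Vᴴ * V) * (v * a) * Vᴴ := by rw [hV]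
      _ = _ := by simp only [Matrix.mul_assoc]
  rw [e1]
  generalize V * v * Vᴴ = x at hω hxc
  generalize V * (v * a) * Vᴴ = x' at hω hx'c
  have c1 : Le ((EE O x)ᴴ * EE O x) 1 := hC d O x hxc
  have c2 : Le ((EE O x')ᴴ * EE O x') 1 := hC d O x' hx'c
  have c3 : Le (((EE O x)ᴴ)ᴴ * (EE O x)ᴴ) 1 := by
    rw [Matrix.conjTranspose_conjTranspose]
    exact contr_conj c1
  refine ⟨(EE O x)ᴴ * EE O x', alg_mul (alg_conjTranspose (EE_mem x)) (EE_mem x'),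
    contr_prod c3 c2, ?_⟩
  have e2 : xᴴ * x' - (EE O x)ᴴ * EE O x' =
      (x - EE O x)ᴴ * x' + (EE O x)ᴴ * (x' - EE O x') := by
    rw [Matrix.conjTranspose_sub, Matrix.sub_mul, Matrix.mul_sub]
    abel
  have h1 := Pool.Agent.W683.RC.hs_add_le ((x - EE O x)ᴴ * x') ((EE O x)ᴴ * (x' - EE O x'))
  rw [← e2] at h1
  have h2 := hs_mul_le_right hx'c (x - EE O x)ᴴ
  rw [Pool.Agent.W683.RC.hs_conjTranspose] at h2
  have h3 := hs_mul_le c3 (x' - EE O x')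
  have h4 := Pool.Agent.W683.RC.hs_nonneg (x - EE O x)
  have h5 := Pool.Agent.W683.RC.hs_nonneg (x' - EE O x')
  have e3 : 16 * η * (d : ℝ) = 16 * (η * d) := by ring
  rw [e3]
  linarith

end

end Pool.Agent.N607.ST.STR
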